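import Mathlib

open Cardinal Set

namespace Pool.Agent.Results.MP_47bc22_lc.AllSetsDelta

/-- The set `ω₁` of all countable ordinals. -/
abbrev W : Type 1 := Set.Iio (Ordinal.omega.{0} 1)

/-- The generalised Baire space `ω₁^ω₁`: all functions from `ω₁` to `ω₁`. -/
def GB : Type 1 := W → W

/-- The bounded topology on `ω₁^ω₁`: the basic open sets are the sets of all functions extending
a given function with values in `ω₁` from a countable ordinal `α`. -/
instance : TopologicalSpace GB :=
  TopologicalSpace.generateFrom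
    {U | ∃ (α : W) (s : GB), U = {f : GB | ∀ β : W, β < α → f β = s β}}

/-- `A` is `Π¹₁` (boldface): there is an open set `U` of the product with
`x ∈ A ↔ ∀ g, (x, g) ∈ U`. -/
def Pi11 {X : Type 1} [TopologicalSpace X] (A : Set X) : Prop :=
  ∃ U : Set (X × GB), IsOpen U ∧ ∀ x, x ∈ A ↔ ∀ g : GB, (x, g) ∈ U

/-- `A` is `Σ¹₁`: the complement of `A` is `Π¹₁`. -/
def Sigma11 {X : Type 1} [TopologicalSpace X] (A : Set X) : Prop := Pi11 Aᶜ

/-- `A` is `Δ¹₁`: both `Σ¹₁` and `Π¹₁`. -/
def Delta11 {X : Type 1} [TopologicalSpace X] (A : Set X) : Prop := Sigma11 A ∧ Pi11 A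

/-- `A` is `Σ¹₂`: the projection of a `Π¹₁` subset of the product. -/
def Sigma12 {X : Type 1} [TopologicalSpace X] (A : Set X) : Prop :=
  ∃ P : Set (X × GB), Pi11 P ∧ ∀ x, x ∈ A ↔ ∃ g : GB, (x, g) ∈ P

/-- `A` is `Δ¹₂`: both `A` and its complement are `Σ¹₂`. -/
def Delta12 {X : Type 1} [TopologicalSpace X] (A : Set X) : Prop := Sigma12 A ∧ Sigma12 Aᶜ

/-- The predecessors of `t` with the relation `r` are isomorphic to the ordinal `α`:
the node `t` has height `α`. -/
def HasHeight (r : W → W → Prop) (t : W) (α : Ordinal.{0}) : Prop :=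
  Nonempty ((fun s s' : {s : W // r s t} => r s.1 s'.1) ≃r
    (fun β γ : Set.Iio α => β.1 < γ.1))

/-- `r` is the strict order of a regular `ℵ₁`-tree on the underlying set `ω₁`:
a strict partial order in which the predecessors of every node are well ordered (so that every
node has a height), all heights are countable, every level below `ω₁` is nonempty and countable,
there is a root, every node has at least two immediate successors, and every node of height `α`
has extensions at every height strictly between `α` and `ω₁`. -/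
structure IsRegularTree (r : W → W → Prop) : Prop where
  irrefl : ∀ a, ¬ r a a
  trans : ∀ a b c, r a b → r b c → r a c
  height : ∀ t, ∃ α : Ordinal.{0}, α < Ordinal.omega.{0} 1 ∧ HasHeight r t α
  level_nonempty : ∀ α : Ordinal.{0}, α < Ordinal.omega.{0} 1 → {t | HasHeight r t α}.Nonempty
  level_countable : ∀ α : Ordinal.{0}, α < Ordinal.omega.{0} 1 → {t | HasHeight r t α}.Countable
  root : ∃ a, ∀ t, t ≠ a → r a t
  split : ∀ t, ∃ s s', s ≠ s' ∧ (r t s ∧ ¬ ∃ u, r t u ∧ r u s) ∧
    (r t s' ∧ ¬ ∃ u, r t u ∧ r u s')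
  pruned : ∀ t, ∀ α β : Ordinal.{0}, HasHeight r t α → α < β → β < Ordinal.omega.{0} 1 →
    ∃ s, r t s ∧ HasHeight r s β

/-- `r` is the strict order of a regular Kurepa tree on `ω₁`: a regular `ℵ₁`-tree with at least
`ℵ₂` uncountable branches (maximal chains). -/
def IsRegularKurepa (r : W → W → Prop) : Prop :=
  IsRegularTree r ∧
    Cardinal.aleph 2 ≤ Cardinal.mk {b : Set W // IsMaxChain r b ∧ ¬ b.Countable}

/-- The class `𝒦` of codes of regular Kurepa trees on `ω₁`: `x` is a code when it is the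
characteristic function (with values `1` and `0`) of such a tree order under the pairing
bijection `p`. -/
def KurepaCodes (p : W × W ≃ W) : Set GB :=
  {x | ∃ r : W → W → Prop, IsRegularKurepa r ∧
    ∀ a b, (r a b ∧ (x (p (a, b))).1 = 1) ∨ (¬ r a b ∧ (x (p (a, b))).1 = 0)}

/-! ### Proof -/

theorem mk_W : Cardinal.mk W = Cardinal.aleph 1 := by
  rw [Cardinal.mk_Iio_ordinal]
  simp

theorem mk_GB : Cardinal.mk GB = 2 ^ (Cardinal.aleph.{1} 1) := by
  have h : Cardinal.mk GB = Cardinal.mk W ^ Cardinal.mk W := by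
    change Cardinal.mk (W → W) = _
    rw [Cardinal.mk_arrow, Cardinal.lift_id]
  rw [h, mk_W]
  exact Cardinal.power_self_eq (Cardinal.aleph0_le_aleph 1)

theorem exists_embedding (h : (2 : Cardinal.{0}) ^ Cardinal.aleph 0 = 2 ^ Cardinal.aleph 1) :
    ∃ e : GB → (ℕ → Bool), Function.Injective e := by
  have h1 : Cardinal.mk GB = Cardinal.lift.{1} (Cardinal.mk (ℕ → Bool)) := by
    rw [mk_GB]
    have : Cardinal.mk (ℕ → Bool) = 2 ^ Cardinal.aleph 0 := by simp
    rw [this, h]
    simp
  have h2 : Cardinal.lift.{0} (Cardinal.mk GB) ≤ Cardinal.lift.{1} (Cardinal.mk (ℕ → Bool)) := by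
    rw [h1]; simp
  obtain ⟨e⟩ := Cardinal.lift_mk_le'.1 h2
  exact ⟨e, e.injective⟩

theorem natCast_lt_omega_one (n : ℕ) : (n : Ordinal.{0}) < Ordinal.omega.{0} 1 :=
  (Ordinal.natCast_lt_omega0 n).trans Ordinal.omega0_lt_omega_one

/-- `ω` as an element of `ω₁`. -/
def om : W := ⟨Ordinal.omega0, Ordinal.omega0_lt_omega_one⟩

def natW (n : ℕ) : W := ⟨n, natCast_lt_omega_one n⟩

open Classical in
/-- The code of `x` below `ω`. -/
noncomputable def code (e : GB → (ℕ → Bool)) (x : GB) : GB := fun β =>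
  if ∃ n : ℕ, β = natW n ∧ e x n = true then natW 1 else natW 0

theorem natW_inj {m n : ℕ} (h : natW m = natW n) : m = n := by
  have h' : (m : Ordinal.{0}) = (n : Ordinal.{0}) := congrArg Subtype.val h
  exact Nat.cast_injective h'

theorem natW_lt_om (n : ℕ) : natW n < om := by
  change (natW n).1 < om.1
  exact Ordinal.natCast_lt_omega0 n

theorem code_inj {e : GB → (ℕ → Bool)} (he : Function.Injective e) {x y : GB}
    (h : ∀ β : W, β < om → code e x β = code e y β) : x = y := by
  apply he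
  funext n
  have h1 := h (natW n) (natW_lt_om n)
  have key : ∀ z : GB, code e z (natW n) = if e z n = true then natW 1 else natW 0 := by
    intro z
    unfold code
    by_cases hz : e z n = true
    · rw [if_pos ⟨n, rfl, hz⟩, if_pos hz]
    · rw [if_neg, if_neg hz]
      rintro ⟨m, hm, hm'⟩
      rw [natW_inj hm] at hz
      exact hz hm'
  rw [key, key] at h1
  have h01 : natW 1 ≠ natW 0 := fun h => absurd (natW_inj h) (by norm_num)
  by_cases hx : e x n = true <;> by_cases hy : e y n = true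
  · rw [hx, hy]
  · rw [if_pos hx, if_neg hy] at h1; exact absurd h1 h01
  · rw [if_neg hx, if_pos hy] at h1; exact absurd h1.symm h01
  · simp only [Bool.not_eq_true] at hx hy
    rw [hx, hy]

theorem isOpen_basic (α : W) (s : GB) : IsOpen {f : GB | ∀ β : W, β < α → f β = s β} :=
  TopologicalSpace.isOpen_generateFrom_of_mem ⟨α, s, rfl⟩

theorem exists_gt (γ : W) : ∃ α : W, γ < α := by
  have hlim : Order.IsSuccLimit (Ordinal.omega.{0} 1) := Cardinal.isSuccLimit_omega 1
  exact ⟨⟨Order.succ γ.1, hlim.succ_lt γ.2⟩, by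
    change γ.1 < Order.succ γ.1
    exact Order.lt_succ γ.1⟩

/-- Under the hypothesis every subset of `ω₁^ω₁` is `Σ¹₁`. -/
theorem sigma11_all (h : (2 : Cardinal.{0}) ^ Cardinal.aleph 0 = 2 ^ Cardinal.aleph 1)
    (A : Set GB) : Sigma11 A := by
  obtain ⟨e, he⟩ := exists_embedding h
  refine ⟨{q : GB × GB | ¬ (q.1 ∈ A ∧ ∀ β : W, β < om → q.2 β = code e q.1 β)}, ?_, ?_⟩
  · rw [isOpen_iff_forall_mem_open]
    rintro ⟨x', g'⟩ hq
    by_cases hex : ∃ y : GB, ∀ β : W, β < om → g' β = code e y β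
    · obtain ⟨y, hy⟩ := hex
      by_cases hxy : x' = y
      · subst hxy
        refine ⟨{q : GB × GB | ∀ β : W, β < om → q.2 β = g' β}, ?_,
          (isOpen_basic om g').preimage continuous_snd, fun β _ => rfl⟩
        rintro ⟨x, g⟩ hg ⟨hxA, hxg⟩
        have : x = x' := code_inj he fun β hβ => by
          rw [← hxg β hβ, hg β hβ, hy β hβ]
        subst this
        exact hq ⟨hxA, hy⟩
      · obtain ⟨γ, hγ⟩ : ∃ γ, x' γ ≠ y γ := by
          by_contra hne
          push Not at hne
          exact hxy (funext hne)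
        obtain ⟨α, hα⟩ := exists_gt γ
        refine ⟨{q : GB × GB | (∀ β : W, β < α → q.1 β = x' β) ∧
          ∀ β : W, β < om → q.2 β = g' β}, ?_,
          ((isOpen_basic α x').preimage continuous_fst).inter
            ((isOpen_basic om g').preimage continuous_snd),
          ⟨fun β _ => rfl, fun β _ => rfl⟩⟩
        rintro ⟨x, g⟩ ⟨hx, hg⟩ ⟨hxA, hxg⟩
        have : x = y := code_inj he fun β hβ => by
          rw [← hxg β hβ, hg β hβ, hy β hβ]
        subst this
        exact hγ (hx γ hα).symm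
    · refine ⟨{q : GB × GB | ∀ β : W, β < om → q.2 β = g' β}, ?_,
        (isOpen_basic om g').preimage continuous_snd, fun β _ => rfl⟩
      rintro ⟨x, g⟩ hg ⟨hxA, hxg⟩
      exact hex ⟨x, fun β hβ => by rw [← hxg β hβ, hg β hβ]⟩
  · intro x
    constructor
    · intro hx g hg
      exact hx hg.1
    · intro hall hx
      exact hall (code e x) ⟨hx, fun β _ => rfl⟩

theorem delta11_all (h : (2 : Cardinal.{0}) ^ Cardinal.aleph 0 = 2 ^ Cardinal.aleph 1)
    (A : Set GB) : Delta11 A := by
  refine ⟨sigma11_all h A, ?_⟩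
  have := sigma11_all h Aᶜ
  unfold Sigma11 at this
  rwa [compl_compl] at this

theorem sigma12_of_pi11 {A : Set GB} (hA : Pi11 A) : Sigma12 A := by
  obtain ⟨U, hU, hUA⟩ := hA
  refine ⟨{q : GB × GB | q.1 ∈ A}, ⟨{w : (GB × GB) × GB | (w.1.1, w.2) ∈ U}, ?_, ?_⟩, ?_⟩
  · exact hU.preimage (by fun_prop)
  · rintro ⟨x, g⟩
    exact hUA x
  · intro x
    exact ⟨fun hx => ⟨x, hx⟩, fun ⟨_, hx⟩ => hx⟩

/-- Assume `2^ℵ₀ = 2^ℵ₁`. Then every subset of the generalised Baire space `ω₁^ω₁` is `Δ¹₁`
(boldface) and `Δ¹₂`; in particular the class `𝒦` of (codes of) regular Kurepa trees is. -/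
theorem result (h : (2 : Cardinal.{0}) ^ Cardinal.aleph 0 = 2 ^ Cardinal.aleph 1) :
    (∀ A : Set GB, Delta11 A ∧ Delta12 A) ∧
      ∀ p : W × W ≃ W, Delta11 (KurepaCodes p) ∧ Delta12 (KurepaCodes p) := by
  have key : ∀ A : Set GB, Delta11 A ∧ Delta12 A := fun A =>
    ⟨delta11_all h A, sigma12_of_pi11 (delta11_all h A).2, sigma12_of_pi11 (delta11_all h Aᶜ).2⟩
  exact ⟨key, fun p => key _⟩

end Pool.Agent.Results.MP_47bc22_lc.AllSetsDelta
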