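import Pool.Agent.Helper97.Ku.Main
import Pool.Agent.Helper46.FL.Lib
import Pool.Agent.Helper13.Ku.Trans
import Pool.Agent.Helper29.Ku.KURP
import Pool.Agent.Helper77.Ku.SIG
import Pool.Agent.Helper73.Ku.PI
import Pool.Agent.Helper56.Ku.PIE
import Pool.Agent.Helper69.Ku.CLS
import Pool.Agent.Helper45.Ku.S12
import Pool.Agent.Helper27.Ku.DN
import Pool.Agent.Helper85.Ku.LIM
import Pool.Agent.Helper73.Ku.SIG
import Pool.Agent.Helper89.Ku.Lift
import Pool.Agent.Helper67.Ku.PDS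
import Pool.Agent.Helper96.Ku.Cap
import Pool.Agent.Helper49.Ku.Rdi
import Pool.Agent.Helper53.Ku.Step
import Pool.Agent.Helper31.Ku.REC
import Pool.Agent.Helper8.Ku.FUS
import Pool.Agent.Helper6.Ku.FinDep
import Pool.Agent.Helper69.Ku.GOOD
import Pool.Agent.Helper45.Ku.LL
import Pool.Agent.Helper15.Ku.List
import Pool.Agent.Helper11.Ku.BHT
import Pool.Agent.Helper5.Ku.Row
import Pool.Agent.Helper32.Ku.NB
import Pool.Agent.Helper40.Ku.NL
import Pool.Agent.Helper3.Ku.LFT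
import Pool.Agent.Helper50.Ku.EC
import Pool.Agent.Helper54.Ku.FWD
import Pool.Agent.Helper26.Ku.BWD
import Pool.Agent.Helper85.Ku.SYN1
import Pool.Agent.Helper6.Ku.Syn2
import Pool.Agent.Helper27.Ku.KC
import Pool.Agent.Helper31.Ku.SG
import Pool.Agent.Helper8.Ku.UNC
import Pool.Agent.Helper26.Ku.CH
import Pool.Agent.Helper50.Ku.TD
import Pool.Agent.Helper73.Ku.TT
import Pool.Agent.Helper53.Ku.TB
import Pool.Agent.Helper32.Ku.NE

/-! # Kurepa trees: it is consistent with ZFC + CH that the class of codes of regular Kurepa trees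
is nonempty and `Δ¹₂`. -/

namespace Pool.Agent.Results.MP_47bc22_lc.KurepaDeltaCH

open Pool.Agent.Helper97.Ku

/-- There is a model of ZFC and CH in which the set of codes of regular Kurepa trees is nonempty
and `Δ¹₂`. -/
theorem result : ∃ (N : Type 2) (E : N → N → Prop), IsZFC N E ∧ Phi E := by
  have cntd : G_CNTD := PkLift.cntd (PkSIG.sigc PkLIM.lim)
  have row : G_ROW := PkRow.row PkRow.ens PkLift.lift
  have cap : G_CAP := PkCap.cap (PkPDS.clo PkPDS.pds)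
  have nl : G_NL := PkNL.nl PkLift.lift PkDN.dn
  have bwd : G_BWD := PkBWD.bwd cap PkLift.lift PkRow.ens row nl PkLL.fnof
  have fus : G_FUS := PkFUS.fus (PkREC.rec (PkSTEP.step PkRdi.sp2)) PkLIM.lim PkLIM.limu
  have fd : G_FD := PkFD.fd fus cntd PkDN.dn
  have list : G_LIST := PkList.list PkPDS.pds PkLL.ll PkLL.fnof
  have conv : G_CONV := PkBHT.conv PkBHT.bht
  have nb : G_NB := PkNB.nb (PkSIG.sigx PkLIM.lim) cntd PkLift.lift row PkRow.ens
  have ekey : G_EKEY := PkLFT.ekey PkLFT.lft PkRdi.rd row PkRow.ens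
  have ecc : G_ECC := PkEC.ecc ekey PkLFT.lft PkRdi.rd PkDN.dn
  have einc : G_EINC := PkEC.einc ekey PkLFT.lft PkRdi.rd PkDN.dn PkRdi.sp2 ecc
  have fwd : G_FWD := PkFWD.fwd cap list conv fd (PkGOOD.good PkRdi.int) PkLL.ll nb row
    PkRow.ens ecc einc
  have kc : G_KC := PkKC.kc PkSYN1.syn1 PkSyn2.syn2 Pool.Agent.Helper46.FL.fnf fwd bwd
  have cls : G_CLS.{1} := PkCLS.cls PkPI.pi (PkPIE.pie Pool.Agent.Helper46.FL.fnf)
  have s12 : G_S12.{1} := PkS12.s12 cls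
  have tt : G_TT := PkTT.tt PkRow.ens PkLift.lift row
  have tb : G_TB := PkTB.tb cap PkRow.ens PkLift.lift row nl PkLL.fnof
  have htr : G_TRANS.{1} := PkTrans.trans Pool.Agent.Helper46.FL.ufex Pool.Agent.Helper46.FL.zfc
    Pool.Agent.Helper46.FL.rz Pool.Agent.Helper46.FL.los2
    (PkSIG.sig Pool.Agent.Helper46.FL.wna Pool.Agent.Helper46.FL.fnf) PkKURP.kurp
    Pool.Agent.Helper46.FL.wna
  exact main PkDN.grd htr (PkCH.ch PkLL.ll cntd) (PkUNC.unc cntd) PkUNC.cntf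
    (PkNE.ne PkTD.td tt tb PkSYN1.syn1) (PkSG.sg1 kc s12) (PkSG.sg2 s12)

end Pool.Agent.Results.MP_47bc22_lc.KurepaDeltaCH
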